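import Pool.Agent.Lib.MP_319742_pr.LogDecay
import Pool.Agent.Lib.MP_319742_pr.Moments
import Pool.Agent.Lib.MP_319742_pr.ProductBound
import Pool.Agent.Lib.MP_319742_pr.GlobalBound
import Pool.Agent.Lib.MP_319742_pr.Orders
import Pool.Agent.Lib.MP_319742_pr.Smooth
import Pool.Agent.Lib.MP_319742_pr.Decay
import Pool.Agent.Lib.MP_319742_pr.Reduction

set_option autoImplicit false

open MeasureTheory Set
open scoped ENNReal ContDiff

namespace Pool.Agent.Results.MP_319742_pr.SmoothDensity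

open MP319742

/-- Let `α > 4` and let `ν` be a probability measure on `[0,1]` with `ν (0,1) > 0` which solves the
RDE `η = χ (η₁ + (1 - η₁) η₂ η₃)`, where `χ`, `η₁`, `η₂`, `η₃` are independent,
`P[χ = 1] = α / (α + 1)`, `P[χ = 0] = 1 / (α + 1)`. Then `ν` with its atom at `0` removed has a
density which is infinitely differentiable on `(0,1)`. -/
theorem result (α : ℝ) (hα : 4 < α) (ν : Measure ℝ) [IsProbabilityMeasure ν]
    (hsupp : ν (Icc 0 1)ᶜ = 0)
    (hν : ν = ((ENNReal.ofReal (1 / (α + 1)) • Measure.dirac (0 : ℝ) +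
        ENNReal.ofReal (α / (α + 1)) • Measure.dirac (1 : ℝ)).prod (ν.prod (ν.prod ν))).map
        (fun w : ℝ × ℝ × ℝ × ℝ => w.1 * (w.2.1 + (1 - w.2.1) * w.2.2.1 * w.2.2.2)))
    (hnt : 0 < ν (Ioo 0 1)) :
    ∃ g : ℝ → ℝ, (∀ x, 0 ≤ g x) ∧ ContDiffOn ℝ ∞ g (Ioo 0 1) ∧
      ν.restrict ({0} : Set ℝ)ᶜ =
        (volume.restrict (Ioo 0 1)).withDensity (fun x => ENNReal.ofReal (g x)) := by
  obtain ⟨p, q, w, μ, hw, hS, hνμ⟩ := reduction hα hsupp hν hnt
  have := hS.prob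
  obtain ⟨c, K, hc, hdec⟩ := hS.log_decay
  obtain ⟨c₁, hc₁, hmom, -⟩ := hS.exists_negmom
  obtain ⟨k, hk, ε₁, C₁, hε₁, hε₁', hT⟩ := product_bound hS.supp hc hdec hc₁ hmom
  obtain ⟨ε, C, hε, hε', -, hT1, hT2⟩ := hS.tbd hk hε₁ hε₁' hT
  obtain ⟨g, hg0, hg, hμg⟩ := smooth_density_of_decay hS.supp
    (decay_of_good hS.supp hε hε' (fun m => hS.good hε hε' hT1 hT2 m))
  refine ⟨fun x => w * g x, fun x => mul_nonneg hw.le (hg0 x), contDiffOn_const.mul hg, ?_⟩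
  rw [hνμ, hμg]
  have h1 : (fun x => ENNReal.ofReal (w * g x)) =
      (ENNReal.ofReal w) • fun x => ENNReal.ofReal (g x) := by
    ext x
    rw [Pi.smul_apply, smul_eq_mul, ENNReal.ofReal_mul hw.le]
  rw [h1, withDensity_smul' _ _ ENNReal.ofReal_ne_top]

end Pool.Agent.Results.MP_319742_pr.SmoothDensity
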